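import Pool.Agent.Helper88_LPV.WSL
import Pool.Agent.Helper97_LPK.HAD

/-!
# Squad LPV, row WSQ: squares of class sums, half width
-/

set_option autoImplicit false

noncomputable section

open MeasureTheory Filter Topology
open scoped RealInnerProductSpace

namespace Pool.Agent.LPV.H57

open Pool.Agent.LPK Pool.Agent.LPV Pool.Agent.LPV.H88

/-- the even vectors are the vectors `2 a` -/
theorem tsum_two {n : ℕ} (f : (Fin n → ℤ) → ℝ) :
    ∑' a : Fin n → ℤ, ind (Evn a) * f a = ∑' a : Fin n → ℤ, f (2 • a) := by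
  have hinj : Function.Injective (fun a : Fin n → ℤ => 2 • a) := by
    intro a a' h
    funext i
    have := congrFun h i
    simp only [Pi.smul_apply, nsmul_eq_mul] at this
    omega
  have h := Function.Injective.tsum_eq hinj
    (f := fun a : Fin n → ℤ => ind (Evn a) * f a) (by
      intro a ha
      have he : Evn a := by
        by_contra hc
        apply ha
        simp [ind, hc]
      choose w hw using he
      refine ⟨w, ?_⟩
      funext i
      have := hw i
      simp only [Pi.smul_apply, nsmul_eq_mul]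
      omega)
  rw [← h]
  refine tsum_congr fun a => ?_
  have he : Evn (2 • a) := fun i => ⟨a i, by simp⟩
  show ind (Evn (2 • a)) * f (2 • a) = f (2 • a)
  unfold ind
  rw [if_pos he, one_mul]

/-- **WSQ** -/
theorem wsq (h1 : DuaStmt) (_h2 : SumStmt) : WsqStmt := by
  intro n hn κ b b' hdu α β s
  have hF : Summable fun a : Fin n → ℤ => WH s (pt b a) := by
    have h := wh_summable h1 hdu s 0 (fun _ => 1) 1 (fun x => by simp)
    simpa using h
  have htwo : ∀ a : Fin n → ℤ, pt b (2 • a) = (2 : ℝ) • pt b a := (h1 n κ b b' hdu).2.2.2.2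
  have hinj : Function.Injective (fun a : Fin n → ℤ => 2 • a) := by
    intro a a' h
    funext i
    have := congrFun h i
    simp only [Pi.smul_apply, nsmul_eq_mul] at this
    omega
  have hF2 : Summable fun a : Fin n → ℤ => WH s ((2 : ℝ) • pt b a) := by
    have h := hF.comp_injective hinj
    refine h.congr fun a => ?_
    simp only [Function.comp_apply, htwo]
  have hp := pm_nonneg (F := fun a : Fin n → ℤ => WH s (pt b a)) hF
  have hP : Summable fun a : Z2 n =>
      e1 s (‖pt b a.1‖ ^ 2 + ‖pt b a.2‖ ^ 2 + 2 * ⟪pt b a.1, pt b a.2⟫) *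
      e1 s (‖pt b a.1‖ ^ 2 + ‖pt b a.2‖ ^ 2 - 2 * ⟪pt b a.1, pt b a.2⟫) *
        (G (pt b a.1) * G (pt b a.2)) :=
    hp.1.congr fun a => wh_pm h1 hdu s a
  refine ⟨hF, hF2, hP, ?_⟩
  have h3 := Pool.Agent.LPK.H97.had n hn α β
    (fun c => ∑' a, Pool.Agent.LPK.H54.Fc (fun a => WH s (pt b a)) c a) (fun _ => 0)
    (fun c d => if ∑ i, c i * d i = 0 then 1 else -1) (fun _ _ => rfl)
  have q1 : ∑' a : Fin n → ℤ, WH s ((2 : ℝ) • pt b a) =
      ∑' a, Pool.Agent.LPK.H54.Fc (fun a => WH s (pt b a)) 0 a := by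
    rw [← Pool.Agent.LPK.H54.zer, tsum_two]
    exact tsum_congr fun a => by rw [htwo]
  have q2 := Pool.Agent.LPK.H54.tot hF
  have q3 : ∑' a : Z2 n, e1 s (‖pt b a.1‖ ^ 2 + ‖pt b a.2‖ ^ 2 + 2 * ⟪pt b a.1, pt b a.2⟫) *
      e1 s (‖pt b a.1‖ ^ 2 + ‖pt b a.2‖ ^ 2 - 2 * ⟪pt b a.1, pt b a.2⟫) *
        (G (pt b a.1) * G (pt b a.2)) =
      ∑ c, (∑' a, Pool.Agent.LPK.H54.Fc (fun a => WH s (pt b a)) c a) ^ 2 := by
    rw [← Pool.Agent.LPK.H54.prs hF, tsum_pm (fun p : Z2 n => WH s (pt b p.1) * WH s (pt b p.2))]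
    exact tsum_congr fun a => (wh_pm h1 hdu s a).symm
  rw [q1, q2, q3]
  simp only [mul_zero, Finset.sum_const_zero, add_zero, ne_eq, OfNat.ofNat_ne_zero,
    not_false_eq_true, zero_pow] at h3
  linarith

end Pool.Agent.LPV.H57
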